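import Pool.Agent.Helper40.Ct.Goals

/-! The boundary of the fundamental chain of the grid. -/

set_option autoImplicit false

open Finset

namespace Pool.Agent.Helper3.Ct

open Pool.Agent.Helper40.Ct

/-- the vertices of a simplex of the grid -/
def V {D : ℕ} (y : Fin (D + 1) → ℤ) (σ : Equiv.Perm (Fin (D + 1))) (s : ℕ) :
    Fin (D + 1) → ℤ := fun j => y j + if (σ.symm j : ℕ) < s then 1 else 0

theorem frd_eq {D : ℕ} (y : Fin (D + 1) → ℤ) (σ : Equiv.Perm (Fin (D + 1))) :
    frd y σ = List.ofFn (fun s : Fin (D + 1 + 1) => V y σ s) := by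
  unfold frd
  congr 1
  funext s j
  unfold V
  rw [Pi.add_apply, Finset.sum_apply, Finset.sum_filter]
  congr 1
  have h : ∀ t : Fin (D + 1), (if (t : ℕ) < s then (Pi.single (σ t) (1 : ℤ) : Fin (D + 1) → ℤ) j
      else 0) = if t = σ.symm j then (if (σ.symm j : ℕ) < s then 1 else 0) else 0 := by
    intro t
    by_cases h1 : t = σ.symm j
    · subst h1
      rw [if_pos rfl, Equiv.apply_symm_apply, Pi.single_eq_same]
    · rw [if_neg h1, Pi.single_eq_of_ne, ite_self]
      rintro rfl
      exact h1 (by simp)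
  rw [Finset.sum_congr rfl fun t _ => h t, Finset.sum_ite_eq' univ (σ.symm j)]
  simp

theorem erase_ofFn {V : Type} {n : ℕ} (g : Fin (n + 1) → V) (i : Fin (n + 1)) :
    (List.ofFn g).eraseIdx i = List.ofFn (fun s => g (i.succAbove s)) := by
  refine List.ext_getElem ?_ ?_
  · rw [List.length_eraseIdx, List.length_ofFn, List.length_ofFn, if_pos i.2]
    simp
  · intro k h1 h2
    rw [List.getElem_eraseIdx]
    rw [List.length_ofFn] at h2
    by_cases h3 : k < (i : ℕ)
    · rw [dif_pos h3, List.getElem_ofFn, List.getElem_ofFn]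
      congr 1
      rw [Fin.succAbove_of_castSucc_lt i ⟨k, h2⟩ (by simpa [Fin.lt_def] using h3)]
      rfl
    · rw [dif_neg h3, List.getElem_ofFn, List.getElem_ofFn]
      congr 1
      rw [Fin.succAbove_of_le_castSucc i ⟨k, h2⟩ (by simpa [Fin.le_def] using h3)]
      rfl

theorem face_eq {D : ℕ} (y : Fin (D + 1) → ℤ) (σ : Equiv.Perm (Fin (D + 1)))
    (i : Fin (D + 1 + 1)) :
    (frd y σ).eraseIdx i = List.ofFn (fun s : Fin (D + 1) => V y σ (i.succAbove s)) := by
  rw [frd_eq, erase_ofFn]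

/-- the inner faces cancel -/
theorem inner {D : ℕ} (y : Fin (D + 1) → ℤ) (f : List (Fin (D + 1) → ℤ) → ℤ) (i : Fin D) :
    ∑ σ : Equiv.Perm (Fin (D + 1)), ((Equiv.Perm.sign σ : ℤˣ) : ℤ) *
      f ((frd y σ).eraseIdx (i.castSucc.succ : Fin (D + 1 + 1))) = 0 := by
  have hne : i.castSucc ≠ i.succ := by
    intro h
    have := congrArg Fin.val h
    simp at this
  have h1 : ∀ σ : Equiv.Perm (Fin (D + 1)),
      f ((frd y (σ * Equiv.swap i.castSucc i.succ)).eraseIdx
        (i.castSucc.succ : Fin (D + 1 + 1))) =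
      f ((frd y σ).eraseIdx (i.castSucc.succ : Fin (D + 1 + 1))) := by
    intro σ
    rw [face_eq, face_eq]
    congr 2
    funext s j
    unfold V
    congr 1
    have hs : ((i.castSucc.succ : Fin (D + 1 + 1)).succAbove s : ℕ) ≠ (i : ℕ) + 1 := by
      intro h
      exact Fin.succAbove_ne (i.castSucc.succ : Fin (D + 1 + 1)) s (Fin.ext (by simpa using h))
    have h2 : (σ * Equiv.swap i.castSucc i.succ).symm j =
        Equiv.swap i.castSucc i.succ (σ.symm j) := by
      rw [Equiv.symm_apply_eq]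
      simp
    rw [h2]
    generalize σ.symm j = t
    generalize ((i.castSucc.succ : Fin (D + 1 + 1)).succAbove s : ℕ) = m at hs
    rcases eq_or_ne t i.castSucc with rfl | h3
    · rw [Equiv.swap_apply_left]
      have e1 : ((i.succ : Fin (D + 1)) : ℕ) = (i : ℕ) + 1 := by simp
      have e2 : ((i.castSucc : Fin (D + 1)) : ℕ) = (i : ℕ) := by simp
      rw [e1, e2]
      by_cases h4 : (i : ℕ) < m
      · rw [if_pos h4, if_pos (by omega)]
      · rw [if_neg h4, if_neg (by omega)]
    · rcases eq_or_ne t i.succ with rfl | h4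
      · rw [Equiv.swap_apply_right]
        have e1 : ((i.succ : Fin (D + 1)) : ℕ) = (i : ℕ) + 1 := by simp
        have e2 : ((i.castSucc : Fin (D + 1)) : ℕ) = (i : ℕ) := by simp
        rw [e1, e2]
        by_cases h4 : (i : ℕ) < m
        · rw [if_pos h4, if_pos (by omega)]
        · rw [if_neg h4, if_neg (by omega)]
      · rw [Equiv.swap_apply_of_ne_of_ne h3 h4]
  have h2 := Equiv.sum_comp (Equiv.mulRight (Equiv.swap i.castSucc i.succ))
    (fun σ : Equiv.Perm (Fin (D + 1)) => ((Equiv.Perm.sign σ : ℤˣ) : ℤ) *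
      f ((frd y σ).eraseIdx (i.castSucc.succ : Fin (D + 1 + 1))))
  simp only [Equiv.coe_mulRight, h1, Equiv.Perm.sign_mul, Equiv.Perm.sign_swap hne,
    Units.val_neg, mul_neg, mul_one, neg_mul, Finset.sum_neg_distrib] at h2
  omega

/-- the first face is the last face of another simplex -/
theorem face_zero {D : ℕ} (y : Fin (D + 1) → ℤ) (σ : Equiv.Perm (Fin (D + 1))) :
    (frd y σ).eraseIdx ((0 : Fin (D + 1 + 1)) : ℕ) =
      (frd (y + Pi.single (σ 0) 1) (σ * finRotate (D + 1))).eraseIdx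
        (Fin.last (D + 1) : Fin (D + 1 + 1)) := by
  rw [face_eq, face_eq]
  congr 1
  funext s j
  rw [Fin.succAbove_last, Fin.succAbove_zero]
  unfold V
  rw [Pi.add_apply, add_assoc (y j)]
  congr 1
  have h2 : (σ * finRotate (D + 1)).symm j = (finRotate (D + 1)).symm (σ.symm j) := by
    rw [Equiv.symm_apply_eq]
    simp
  rw [h2]
  obtain ⟨t, ht⟩ : ∃ t, σ.symm j = finRotate (D + 1) t := ⟨(finRotate (D + 1)).symm (σ.symm j),
    by simp⟩
  have hj : j = σ (finRotate (D + 1) t) := by rw [← ht]; simp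
  rw [ht, Equiv.symm_apply_apply]
  have hs := s.2
  rcases eq_or_ne t (Fin.last D) with rfl | h3
  · rw [finRotate_last] at hj ⊢
    rw [hj, Pi.single_eq_same]
    have e1 : ¬ ((Fin.last D : Fin (D + 1)) : ℕ) < ((s.castSucc : Fin (D + 1 + 1)) : ℕ) := by
      simp
      omega
    rw [if_neg e1, if_pos (by simp)]
    rfl
  · have e1 := coe_finRotate_of_ne_last h3
    have e2 : j ≠ σ 0 := by
      rw [hj]
      intro h
      have := congrArg Fin.val (σ.injective h)
      rw [e1] at this
      simp at this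
    rw [Pi.single_eq_of_ne e2, zero_add, e1]
    simp


/-- the corners in the box -/
noncomputable def Bx (D M : ℕ) : Finset (Fin (D + 1) → ℤ) := Fintype.piFinset fun _ => Ico (0 : ℤ) M

theorem sum_corner {D M : ℕ} (G : (Fin (D + 1) → ℤ) → ℤ) :
    ∑ x : Fin (D + 1) → Fin M, G (corner x) = ∑ y ∈ Bx D M, G y := by
  refine Finset.sum_bij (fun x _ => corner x) ?_ ?_ ?_ fun _ _ => rfl
  · intro x _
    rw [Bx, Fintype.mem_piFinset]
    intro j
    rw [Finset.mem_Ico]
    unfold corner
    have := (x j).2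
    omega
  · intro x _ x' _ h
    funext j
    have := congrFun h j
    unfold corner at this
    exact Fin.ext (by omega)
  · intro y hy
    rw [Bx, Fintype.mem_piFinset] at hy
    refine ⟨fun j => ⟨(y j).toNat, ?_⟩, Finset.mem_univ _, ?_⟩
    · have := Finset.mem_Ico.1 (hy j)
      omega
    · funext j
      have := Finset.mem_Ico.1 (hy j)
      unfold corner
      show (((y j).toNat : ℕ) : ℤ) = y j
      omega

theorem shift {D M : ℕ} (G : (Fin (D + 1) → ℤ) → ℤ) (k : Fin (D + 1))
    (h0 : ∀ y : Fin (D + 1) → ℤ, (∀ j, 0 ≤ y j ∧ (y j < M ∨ (j = k ∧ y j ≤ M))) →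
      y k = 0 → G y = 0)
    (hM : ∀ y : Fin (D + 1) → ℤ, (∀ j, 0 ≤ y j ∧ (y j < M ∨ (j = k ∧ y j ≤ M))) →
      y k = M → G y = 0) :
    ∑ y ∈ Bx D M, G (y + Pi.single k 1) = ∑ y ∈ Bx D M, G y := by
  classical
  set B' : Finset (Fin (D + 1) → ℤ) :=
    Fintype.piFinset fun j => if j = k then Ico (1 : ℤ) (M + 1) else Ico (0 : ℤ) M with hB'
  have hmB : ∀ y, y ∈ Bx D M ↔ ∀ j, 0 ≤ y j ∧ y j < M := by
    intro y
    rw [Bx, Fintype.mem_piFinset]
    simp only [Finset.mem_Ico]
  have hmB' : ∀ y, y ∈ B' ↔ ∀ j, (j = k → 1 ≤ y j ∧ y j ≤ M) ∧ (j ≠ k → 0 ≤ y j ∧ y j < M) := by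
    intro y
    rw [hB', Fintype.mem_piFinset]
    refine forall_congr' fun j => ?_
    by_cases hj : j = k
    · rw [if_pos hj, Finset.mem_Ico]
      constructor
      · intro h
        exact ⟨fun _ => by omega, fun h' => absurd hj h'⟩
      · intro h
        have := h.1 hj
        omega
    · rw [if_neg hj, Finset.mem_Ico]
      constructor
      · intro h
        exact ⟨fun h' => absurd h' hj, fun _ => h⟩
      · intro h
        exact h.2 hj
  have h1 : ∑ y ∈ Bx D M, G (y + Pi.single k 1) = ∑ y ∈ B', G y := by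
    refine Finset.sum_bij (fun y _ => y + Pi.single k 1) ?_ ?_ ?_ fun _ _ => rfl
    · intro y hy
      rw [hmB] at hy
      rw [hmB']
      intro j
      have := hy j
      rw [Pi.add_apply]
      by_cases hj : j = k
      · subst hj
        rw [Pi.single_eq_same]
        exact ⟨fun _ => by omega, fun h => absurd rfl h⟩
      · rw [Pi.single_eq_of_ne hj]
        exact ⟨fun h => absurd h hj, fun _ => by omega⟩
    · intro y _ y' _ h
      exact add_right_cancel h
    · intro y hy
      rw [hmB'] at hy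
      refine ⟨y - Pi.single k 1, ?_, by simp⟩
      rw [hmB]
      intro j
      rw [Pi.sub_apply]
      by_cases hj : j = k
      · subst hj
        rw [Pi.single_eq_same]
        have := (hy j).1 rfl
        omega
      · rw [Pi.single_eq_of_ne hj]
        have := (hy j).2 hj
        omega
  rw [h1, ← Finset.sum_subset (Finset.inter_subset_left : B' ∩ Bx D M ⊆ B'),
    ← Finset.sum_subset (Finset.inter_subset_right : B' ∩ Bx D M ⊆ Bx D M)]
  · intro y hy hy'
    have hyB := (hmB y).1 hy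
    refine h0 y (fun j => ⟨(hyB j).1, Or.inl (hyB j).2⟩) ?_
    by_contra hne
    apply hy'
    refine Finset.mem_inter.2 ⟨(hmB' y).2 fun j => ⟨?_, fun _ => hyB j⟩, hy⟩
    rintro rfl
    have := hyB j
    omega
  · intro y hy hy'
    have hyB := (hmB' y).1 hy
    have hyB1 : ∀ j, 0 ≤ y j ∧ (y j < M ∨ (j = k ∧ y j ≤ M)) := by
      intro j
      by_cases hj : j = k
      · have := (hyB j).1 hj
        exact ⟨by omega, Or.inr ⟨hj, by omega⟩⟩
      · have := (hyB j).2 hj
        exact ⟨this.1, Or.inl this.2⟩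
    refine hM y hyB1 ?_
    by_contra hne
    apply hy'
    refine Finset.mem_inter.2 ⟨hy, (hmB y).2 fun j => ?_⟩
    by_cases hj : j = k
    · subst hj
      have := (hyB j).1 rfl
      omega
    · exact (hyB j).2 hj

theorem grb : GRB := by
  classical
  intro d M f hd hf
  obtain ⟨D, rfl⟩ : ∃ D, d = D + 1 := ⟨d - 1, by omega⟩
  -- the last faces
  have key : ∀ σ : Equiv.Perm (Fin (D + 1)),
      ∑ y ∈ Bx D M, f ((frd (y + Pi.single (σ (Fin.last D)) 1) σ).eraseIdx
        (Fin.last (D + 1) : Fin (D + 1 + 1))) =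
      ∑ y ∈ Bx D M, f ((frd y σ).eraseIdx (Fin.last (D + 1) : Fin (D + 1 + 1))) := by
    intro σ
    have hface : ∀ y : Fin (D + 1) → ℤ,
        (∀ j, 0 ≤ y j ∧ (y j < M ∨ (j = σ (Fin.last D) ∧ y j ≤ M))) →
        (y (σ (Fin.last D)) = 0 ∨ y (σ (Fin.last D)) = M) →
        f ((frd y σ).eraseIdx (Fin.last (D + 1) : Fin (D + 1 + 1))) = 0 := by
      intro y hy hk
      have hlen : ((frd y σ).eraseIdx (Fin.last (D + 1) : Fin (D + 1 + 1))).length = D + 1 := by
        rw [face_eq, List.length_ofFn]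
      have hmem : ∀ w ∈ (frd y σ).eraseIdx (Fin.last (D + 1) : Fin (D + 1 + 1)),
          ∃ s : ℕ, s < D + 1 ∧ w = V y σ s := by
        intro w hw
        rw [face_eq, List.mem_ofFn] at hw
        obtain ⟨s, hs⟩ := hw
        refine ⟨s, s.2, ?_⟩
        rw [← hs, Fin.succAbove_last]
        rfl
      have hVk : ∀ s : ℕ, s < D + 1 → V y σ s (σ (Fin.last D)) = y (σ (Fin.last D)) := by
        intro s hs
        unfold V
        rw [Equiv.symm_apply_apply, if_neg, add_zero]
        simp
        omega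
      refine hf _ hlen ?_ ⟨σ (Fin.last D), ?_⟩
      · intro w hw j
        obtain ⟨s, hs, rfl⟩ := hmem w hw
        have h1 := hy j
        by_cases hj : j = σ (Fin.last D)
        · subst hj
          rw [hVk s hs]
          omega
        · have h2 : y j < M := by
            rcases h1.2 with h2 | h2
            · exact h2
            · exact absurd h2.1 hj
          unfold V
          split_ifs <;> omega
      · rcases hk with hk | hk
        · left
          intro w hw
          obtain ⟨s, hs, rfl⟩ := hmem w hw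
          rw [hVk s hs, hk]
        · right
          intro w hw
          obtain ⟨s, hs, rfl⟩ := hmem w hw
          rw [hVk s hs, hk]
    exact shift (fun y => f ((frd y σ).eraseIdx (Fin.last (D + 1) : Fin (D + 1 + 1))))
      (σ (Fin.last D)) (fun y h1 h2 => hface y h1 (Or.inl h2))
      (fun y h1 h2 => hface y h1 (Or.inr h2))
  -- the sums over the faces with a given index
  set A : Fin (D + 1 + 1) → ℤ := fun i => ∑ y ∈ Bx D M, ∑ σ : Equiv.Perm (Fin (D + 1)),
    ((Equiv.Perm.sign σ : ℤˣ) : ℤ) * f ((frd y σ).eraseIdx i) with hA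
  have hGr : Gr (D + 1) M (bdf f) = ∑ i : Fin (D + 1 + 1), (-1) ^ (i : ℕ) * A i := by
    unfold Gr
    rw [sum_corner (fun y => ∑ σ : Equiv.Perm (Fin (D + 1)),
      ((Equiv.Perm.sign σ : ℤˣ) : ℤ) * bdf f (frd y σ))]
    have h1 : ∀ y : Fin (D + 1) → ℤ, ∀ σ : Equiv.Perm (Fin (D + 1)),
        bdf f (frd y σ) = ∑ i : Fin (D + 1 + 1), (-1) ^ (i : ℕ) * f ((frd y σ).eraseIdx i) := by
      intro y σ
      unfold bdf
      have : (frd y σ).length = D + 1 + 1 := by rw [frd_eq, List.length_ofFn]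
      rw [this, Finset.sum_range]
    simp only [h1, hA, Finset.mul_sum]
    symm
    rw [Finset.sum_comm]
    refine Finset.sum_congr rfl fun y _ => ?_
    rw [Finset.sum_comm]
    refine Finset.sum_congr rfl fun σ _ => Finset.sum_congr rfl fun i _ => ?_
    ring
  have hinner : ∀ i : Fin D, A i.castSucc.succ = 0 := by
    intro i
    rw [hA]
    exact Finset.sum_eq_zero fun y _ => inner y f i
  have hends : A 0 = (-1) ^ D * A (Fin.last (D + 1)) := by
    have e1 : A 0 = ∑ σ : Equiv.Perm (Fin (D + 1)), ∑ y ∈ Bx D M,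
        ((Equiv.Perm.sign σ : ℤˣ) : ℤ) * f ((frd (y + Pi.single (σ 0) 1)
          (σ * finRotate (D + 1))).eraseIdx (Fin.last (D + 1) : Fin (D + 1 + 1))) := by
      rw [hA]
      dsimp only
      rw [Finset.sum_comm]
      refine Finset.sum_congr rfl fun σ _ => Finset.sum_congr rfl fun y _ => ?_
      rw [face_zero]
    have e2 := Equiv.sum_comp (Equiv.mulRight (finRotate (D + 1)))
      (fun σ : Equiv.Perm (Fin (D + 1)) => ∑ y ∈ Bx D M,
        ((-1) ^ D * ((Equiv.Perm.sign σ : ℤˣ) : ℤ)) *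
          f ((frd (y + Pi.single (σ (Fin.last D)) 1) σ).eraseIdx
            (Fin.last (D + 1) : Fin (D + 1 + 1))))
    have e3 : ∀ σ : Equiv.Perm (Fin (D + 1)), ∑ y ∈ Bx D M,
        ((-1) ^ D * ((Equiv.Perm.sign (Equiv.mulRight (finRotate (D + 1)) σ) : ℤˣ) : ℤ)) *
          f ((frd (y + Pi.single ((Equiv.mulRight (finRotate (D + 1)) σ) (Fin.last D)) 1)
            (Equiv.mulRight (finRotate (D + 1)) σ)).eraseIdx
            (Fin.last (D + 1) : Fin (D + 1 + 1))) =
        ∑ y ∈ Bx D M, ((Equiv.Perm.sign σ : ℤˣ) : ℤ) * f ((frd (y + Pi.single (σ 0) 1)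
          (σ * finRotate (D + 1))).eraseIdx (Fin.last (D + 1) : Fin (D + 1 + 1))) := by
      intro σ
      refine Finset.sum_congr rfl fun y _ => ?_
      rw [Equiv.coe_mulRight, Equiv.Perm.sign_mul, sign_finRotate, Equiv.Perm.mul_apply,
        finRotate_last]
      congr 1
      push_cast
      rw [mul_comm ((Equiv.Perm.sign σ : ℤˣ) : ℤ), ← mul_assoc, ← pow_add, ← two_mul, pow_mul]
      norm_num
    rw [e1, ← Finset.sum_congr rfl fun σ _ => e3 σ, e2, hA]
    dsimp only
    rw [Finset.sum_comm (s := Bx D M), Finset.mul_sum]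
    refine Finset.sum_congr rfl fun σ _ => ?_
    rw [← Finset.mul_sum, ← Finset.mul_sum, key σ, mul_assoc]
  rw [hGr, Fin.sum_univ_succ, Fin.sum_univ_castSucc]
  rw [Finset.sum_eq_zero (fun i _ => by rw [hinner i, mul_zero]), zero_add, hends]
  have e4 : ((Fin.last D).succ : Fin (D + 1 + 1)) = Fin.last (D + 1) := rfl
  rw [e4]
  simp only [Fin.val_zero, pow_zero, one_mul, Fin.val_last]
  rw [pow_succ]
  ring

end Pool.Agent.Helper3.Ct
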